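import Pool.Agent.Y69.VN.Loc

/-!
# The Chern character of `π_n A(BΓ)`, `n ≥ 1`, away from the identity

For a group `Γ` and `n ≥ 1` the linearisation `π_n A(BΓ) ⊗ ℚ → K_n(ℤ[Γ]) ⊗ ℚ` is an isomorphism
(Waldhausen).  If `Γ` satisfies the isomorphism conjecture in A-theory (the space `W = EΓ`), then
rationally all classes come from finite subgroups, up to homology, and by Swan's theorem their
Chern characters (Dennis traces) live at the component of the identity of
`HC_n(ℚ[Γ]) = ⨁_{[s]} …`.  We prove this consequence, for all groups `Γ` and all `n ≥ 1`, at every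
`s ≠ 1` which, in every finitely generated subgroup, is not infinitely `p`-divisible for some prime
`p`: for `s` of finite order in Hochschild homology `H_n(Z_Γ(s))`, for `s` of infinite order in
cyclic homology `H_n(Z_Γ(s) / ⟨s⟩)`.  In particular, at all `s ≠ 1` if the finitely generated
subgroups of `Γ` are residually finite.

Let `z` be any cycle of degree `n + 1 ≥ 1` in the bar complex (coefficients `ℤ`) of the group of
invertible matrices over `R[Γ]`; every class of `K_{n+1}(R[Γ])` gives such a `z` by the Hurewicz map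
`K_{n+1}(R[Γ]) → H_{n+1}(GL(R[Γ]); ℤ)`.  `dennis f z` is the value of the Hochschild cocycle `f` on
the Dennis trace of `z`.
-/

set_option autoImplicit false

namespace Pool.Agent.Results.MP_59dd5b_al.ChernCharacterOffIdentity

open Pool.Agent.W644.HK

universe u v w x

/-- The tuple `(y_n⁻¹ P y_0, y_0⁻¹ y_1, y_1⁻¹ y_2, …, y_{n-1}⁻¹ y_n)` read off from the points
`y_0, …, y_n` and `P` (the index `i - 1` is cyclic: `0 - 1 = n`).  Every tuple is of this form, its
product is `y_n⁻¹ P y_n`. -/
def pointWord {G : Type v} [Group G] {n : ℕ} (P : G) (y : Fin (n + 1) → G) : Fin (n + 1) → G :=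
  fun i => (y (i - 1))⁻¹ * (if i = 0 then P else 1) * y i

/-- `q` is a prime number such that no nonzero element of `V` is divisible by all powers of `q`. -/
def Separated (V : Type x) [AddCommGroup V] (q : ℕ) : Prop :=
  q.Prime ∧ ∀ v : V, (∀ e : ℕ, ∃ v' : V, v = q ^ e • v') → v = 0

/-- Let `R` be a commutative ring, `V` an `R`-module which is torsion-free as an abelian group (for
example `R = V = ℤ`), `Γ` any group, `z` a cycle of degree `n + 1` in the bar complex of the group
of invertible `r × r` matrices over `R[Γ]`.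

(1) Let `f` be a Hochschild `(n+1)`-cocycle on `Γ` with values in `V` such that

(a) for every tuple `g` with `f g ≠ 0` and every finitely generated subgroup `H` of `Γ` the product
of `g` is not a `p ^ h`-th power in `H`, for some `h` and some prime `p` such that `V` is
`p`-adically separated;

(b) `f` is shift invariant at the elements `P` of infinite order: the homogeneous cochain
`(y_0, …, y_{n+1}) ↦ f (pointWord P y)` does not change if a single point `y_j` is replaced by
`P y_j`.

Then `⟨f, D z⟩ = 0`.

(2) In particular let `R = V = ℤ` and let all finitely generated subgroups of `Γ` be residually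
finite.  Then `⟨f, D z⟩ = 0` for every Hochschild `(n+1)`-cocycle `f : Γ ^ (n+2) → ℤ` which
vanishes on the tuples with product `1` and is shift invariant at the elements of infinite
order. -/
theorem result (Γ : Type v) [Group Γ] (r : Type w) [Fintype r] [DecidableEq r] (n : ℕ) :
    (∀ (R : Type u) [CommRing R] (V : Type x) [AddCommGroup V] [Module R V],
      (∀ (a : ℕ) (v : V), 0 < a → a • v = 0 → v = 0) →
      ∀ z : (Fin (n + 1) → (Matrix r r (MonoidAlgebra R Γ))ˣ) →₀ ℤ, barBoundary z = 0 →
      ∀ f : (Fin (n + 2) → Γ) → V, IsHochschildCocycle f →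
        (∀ g : Fin (n + 2) → Γ, f g ≠ 0 → ∀ H : Subgroup Γ, H.FG →
          ∃ p : ℕ, Separated V p ∧ ∃ h : ℕ, ∀ a ∈ H, a ^ p ^ h ≠ (List.ofFn g).prod) →
        (∀ (P : Γ) (y : Fin (n + 2) → Γ) (j : Fin (n + 2)), ¬ IsOfFinOrder P →
          f (pointWord P (Function.update y j (P * y j))) = f (pointWord P y)) →
        dennis f z = 0) ∧
    ((∀ H : Subgroup Γ, H.FG → ∀ s : H, s ≠ 1 →
        ∃ (F : Type v) (_ : Group F) (_ : Finite F) (φ : H →* F), φ s ≠ 1) →
      ∀ z : (Fin (n + 1) → (Matrix r r (MonoidAlgebra ℤ Γ))ˣ) →₀ ℤ, barBoundary z = 0 →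
      ∀ f : (Fin (n + 2) → Γ) → ℤ, IsHochschildCocycle f →
        (∀ g : Fin (n + 2) → Γ, (List.ofFn g).prod = 1 → f g = 0) →
        (∀ (P : Γ) (y : Fin (n + 2) → Γ) (j : Fin (n + 2)), ¬ IsOfFinOrder P →
          f (pointWord P (Function.update y j (P * y j))) = f (pointWord P y)) →
        dennis f z = 0) := by
  refine ⟨fun R _ V _ _ htf z hz f hf hsupp hcyc => ?_, fun hres z hz f hf h1 hcyc => ?_⟩
  · refine Pool.Agent.Y69.VN.dennis_zero_loc htf z hz f hf hcyc fun g hg H hH => ?_
    obtain ⟨p, ⟨hp, hsep⟩, hroot⟩ := hsupp g hg H hH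
    exact ⟨p, hp, hsep, hroot⟩
  · refine Pool.Agent.Y69.VN.dennis_zero_loc ?_ z hz f hf hcyc fun g hg H hH => ?_
    · intro a v ha hav
      have h2 : (a : ℤ) * v = 0 := by rw [← hav]; simp
      rcases mul_eq_zero.1 h2 with h3 | h3
      · exact absurd (by exact_mod_cast h3) ha.ne'
      · exact h3
    · have hs : (List.ofFn g).prod ≠ 1 := fun h => hg (h1 g h)
      have hsep : ∀ p : ℕ, p.Prime → ∀ v : ℤ, (∀ e : ℕ, ∃ v' : ℤ, v = p ^ e • v') → v = 0 := by
        intro p hp v hv
        by_contra hv0
        obtain ⟨v', hv'⟩ := hv v.natAbs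
        have h3 : (p : ℤ) ^ v.natAbs ∣ v := by
          refine ⟨v', ?_⟩
          have h6 : (p ^ v.natAbs : ℕ) • v' = (p : ℤ) ^ v.natAbs * v' := by simp
          rw [← h6]
          exact hv'
        have h4 := Int.natAbs_dvd_natAbs.2 h3
        rw [Int.natAbs_pow, Int.natAbs_natCast] at h4
        have h5 := Nat.le_of_dvd (Int.natAbs_pos.2 hv0) h4
        exact absurd h5 (not_le.2 (Nat.lt_pow_self hp.one_lt))
      by_cases hmem : (List.ofFn g).prod ∈ H
      · obtain ⟨F, iF, iF', φ, hφ⟩ := hres H hH ⟨_, hmem⟩ (fun h => hs (congrArg Subtype.val h))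
        obtain ⟨p, hp, h, hroot⟩ := Pool.Agent.Y69.VN.height_of_finite φ _ hφ
        refine ⟨p, hp, hsep p hp, h, fun a ha hpow => hroot ⟨a, ha⟩ ?_⟩
        apply Subtype.ext
        rw [Subgroup.coe_pow]
        exact hpow
      · refine ⟨2, Nat.prime_two, hsep 2 Nat.prime_two, 0, fun a ha hpow => hmem ?_⟩
        rw [← hpow]
        exact H.pow_mem ha _

end Pool.Agent.Results.MP_59dd5b_al.ChernCharacterOffIdentity
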