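import Pool.Agent.Y569.FJ.Div

/-!
# Every countable Farrell-Jones group embeds in a countable divisible Farrell-Jones group

For every class `C` of groups which is closed under subgroups, finite products, free products,
overgroups of finite index and directed colimits (`Closed`): every group in `C` embeds in a divisible
group in `C` (every element has roots of all orders), which is countable if the group is.

Authors of the parts: helper569, helper110, helper462.
-/

set_option autoImplicit false

namespace Pool.Agent.Results.MP_59dd5b_al.DivisibleEmbedding

open Pool.Agent.Y110.FJ

theorem result (C : ∀ (G : Type) [Group G], Prop) (hC : Pool.Agent.Y462.SS.Closed C)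
    (G : Type) [Group G] : C G ↔ ∃ (H : Type) (_ : Group H) (f : G →* H), Function.Injective f ∧
      C H ∧ (∀ (h : H) (n : ℕ), 0 < n → ∃ x : H, x ^ n = h) ∧ (Countable G → Countable H) := by
  constructor
  · intro h
    exact Pool.Agent.Y569.FJ.t_div C hC G h
  · rintro ⟨H, _, f, hf, hH, -⟩
    exact hC.of_injective G H f hf hH

end Pool.Agent.Results.MP_59dd5b_al.DivisibleEmbedding
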