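import Pool.Agent.Y462.EI.Final
import Pool.Agent.Y462.AR.Final

/-!
# Graphs of groups with a homomorphism injective on the edge groups, and Artin groups

`C` is any class of groups with the closure properties `ClosedE C`, all of which are known for the
class of the groups that satisfy the A-theoretic Farrell–Jones Conjecture with coefficients and
finite wreath products, as is the membership of the general linear groups over the integers.
-/

set_option autoImplicit false

namespace Pool.Agent.Results.MP_59dd5b_al.EdgeInjectiveGraphs

open Pool.Agent.Y462.EI (MX cl)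
open Pool.Agent.Y110.FJ (ClosedE)
open Pool.Agent.Y462.AR (Art)
open Pool.Agent.Y462.AR.Glue (triM)

/-- Let `C` be a class of groups with the closure properties `ClosedE C`.

(1) Consider a graph of groups with vertex groups `G v` in `C` and edge groups `H e`, with
`σ e : H e → G (s e)` and `τ e : H e → G (t e)`. Suppose that for every finite set `F` of elements of
the edge groups there are homomorphisms `f v : G v → P` to a group `P` in `C` and elements `x e` of
`P` with `x e * f (τ e h) * (x e)⁻¹ = f (σ e h)` which are injective on the subgroup `cl F e` of `H e`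
generated by the members of `F` in `H e`. Then the group generated by the vertex groups and the
letters `e` with the relations `e * τ e h * e⁻¹ = σ e h`, which contains the fundamental group of the
graph of groups, is in `C`.

(2) Let `C` contain the groups `GL_n(ℤ)`, and let `Art V M` be the Artin group with the finite set `V`
of generators and the labels `M` (`0` means that there is no relation). If `V` is the union of `V1`
and `V2` with at most two common elements, there are no relations between `V1 \ V2` and `V2 \ V1`,
and the Artin groups of `V1` and `V2` are in `C`, then `Art V M` is in `C`.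

(3) Let `C` contain the groups `GL_n(ℤ)`. If the defining graph is two-degenerate (for some ordering
every vertex has at most two earlier neighbours) and the Artin groups of the triangles of the graph
are in `C`, then `Art V M` is in `C`. -/
theorem result (C : ∀ (G : Type) [Group G], Prop) (hC : ClosedE C) :
    (∀ (V E : Type) (G : V → Type) [∀ v, Group (G v)] (_ : ∀ v, C (G v)) (s t : E → V)
      (H : E → Type) [∀ e, Group (H e)] (σ : ∀ e, H e →* G (s e)) (τ : ∀ e, H e →* G (t e))
      (_ : ∀ F : Finset (Σ e, H e), ∃ (P : Type) (_ : Group P) (f : ∀ v, G v →* P) (x : E → P),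
        C P ∧ ∀ e, ∀ h ∈ cl F e, x e * f (t e) (τ e h) = f (s e) (σ e h) * x e ∧
          (f (t e) (τ e h) = 1 → h = 1)),
      C (MX (fun e => (Monoid.CoprodI.of (i := t e)).comp (τ e))
        (fun e => (Monoid.CoprodI.of (i := s e)).comp (σ e)))) ∧
    ((∀ n : ℕ, C (Matrix.GeneralLinearGroup (Fin n) ℤ)) →
      ∀ (V : Type) [Finite V] (M : V → V → ℕ), (∀ s t, M s t = M t s) →
      (∀ s t, s ≠ t → M s t ≠ 1) →
      (∀ V1 V2 : Set V, V1 ∪ V2 = Set.univ → (V1 ∩ V2).ncard ≤ 2 →
        (∀ s ∈ V1 \ V2, ∀ t ∈ V2 \ V1, M s t = 0) → C (Art V1 (fun s t => M s t)) →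
        C (Art V2 (fun s t => M s t)) → C (Art V M)) ∧
      (∀ r : V → ℕ, Function.Injective r → (∀ v, {u | r u < r v ∧ M u v ≠ 0}.ncard ≤ 2) →
        (∀ a b c : V, a ≠ b → b ≠ c → a ≠ c → M a b ≠ 0 → M b c ≠ 0 → M a c ≠ 0 →
          C (Art (Fin 3) (triM (M a b) (M b c) (M a c)))) → C (Art V M))) :=
  ⟨fun V E G _ hG s t H _ σ τ hloc => Pool.Agent.Y462.EI.graph C hC V E G hG s t H σ τ hloc,
    fun hGL V _ M hsym hlab =>
      ⟨fun V1 V2 hU hI h0 hC1 hC2 =>
        Pool.Agent.Y462.AR.artin_glue C hC hGL V M hsym hlab V1 V2 hU hI h0 hC1 hC2,
      fun r hr hdeg htri =>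
        Pool.Agent.Y462.AR.artin_degen C hC hGL V M hsym hlab r hr hdeg htri⟩⟩

end Pool.Agent.Results.MP_59dd5b_al.EdgeInjectiveGraphs
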