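import Pool.Agent.Y462.PA.Final

/-!
# Groups generated by finite-state automorphisms of polynomial activity are Farrell–Jones groups

`C` is any class of groups with the closure properties `ClosedE C`, all of which are known for the
class of the groups that satisfy the A-theoretic Farrell–Jones Conjecture with coefficients and
finite wreath products.
-/

set_option autoImplicit false

namespace Pool.Agent.Results.MP_59dd5b_al.PolynomialActivity

open Pool.Agent.Y462.SS (IsTree Sections)
open Pool.Agent.Y462.PA (PolyActivity)
open Pool.Agent.Y110.FJ (ClosedE)

/-- Let `C` be a class of groups with the closure properties `ClosedE C`. Every group `G` of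
automorphisms of a regular rooted tree `X^*`, `X` finite, which is generated by finite-state
automorphisms of polynomial activity is in `C`. -/
theorem result (C : ∀ (G : Type) [Group G], Prop) (hC : ClosedE C) (X : Type) (hX : Finite X)
    (G : Type) [Group G] (f : G →* Equiv.Perm (List X)) (hf : Function.Injective f)
    (S : Set G) (hS : Subgroup.closure S = ⊤) (hT : ∀ s ∈ S, IsTree (f s))
    (hF : ∀ s ∈ S, (Sections (f s)).Finite) (hB : ∀ s ∈ S, PolyActivity (f s)) : C G :=
  Pool.Agent.Y462.PA.poly C hC X hX G f hf S hS hT hF hB

end Pool.Agent.Results.MP_59dd5b_al.PolynomialActivity
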